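import Pool.Agent.MP_f50dde_an.H80.Main

/-- For a unitary operator `T` on a complex Hilbert space with infinite spectrum and without
eigenvalues and for `r > 1`, every operator `S` on a complex Banach space `Y` which is similar to
`r T` is numerically hypercyclic. -/
theorem Pool.Agent.Results.MP_f50dde_an.ScaledUnitary.result
    {H : Type*} [NormedAddCommGroup H] [InnerProductSpace ℂ H] [CompleteSpace H]
    (T : H →L[ℂ] H) (hT : T ∈ unitary (H →L[ℂ] H))
    (hinf : (spectrum ℂ T).Infinite)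
    (hno : ∀ (c : ℂ) (x : H), T x = c • x → x = 0)
    (r : ℝ) (hr : 1 < r)
    {Y : Type*} [NormedAddCommGroup Y] [NormedSpace ℂ Y] [CompleteSpace Y]
    (S : Y →L[ℂ] Y) (J : H ≃L[ℂ] Y) (hJ : ∀ x : H, J.symm (S (J x)) = ((r : ℂ) • T) x) :
    ∃ (y : Y) (f : Y →L[ℂ] ℂ), ‖y‖ = 1 ∧ ‖f‖ = 1 ∧ f y = 1 ∧
      Dense (Set.range fun n : ℕ => f ((S ^ n) y)) := by
  rcases subsingleton_or_nontrivial H with h | h
  · exfalso
    apply hinf
    have : spectrum ℂ T = ∅ := spectrum.of_subsingleton T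
    rw [this]
    exact Set.finite_empty
  · exact Pool.Agent.MP_f50dde_an.H80.main hT hno hr S J hJ
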